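import Pool.Agent.H82.NET.Stmts

/-!
# Board net, row TPF: compact sets have finite grid neighbourhoods
-/

set_option autoImplicit false

namespace Pool.NET

theorem tpf_thm : TPF_S := by
  intro δ F hδ hF
  obtain ⟨R, hR⟩ := hF.isBounded.exists_norm_le
  have hfin : ((Set.Icc ⌊-R / δ⌋ (⌊R / δ⌋ + 1)) ×ˢ (Set.Icc ⌊-R / δ⌋ (⌊R / δ⌋ + 1)) :
      Set (ℤ × ℤ)).Finite := (Set.finite_Icc _ _).prod (Set.finite_Icc _ _)
  refine hfin.subset ?_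
  rintro g ⟨p, hp, h1, h2⟩
  have hp' := hR p hp
  have a1 : |p.1| ≤ R := (norm_fst_le p).trans hp'
  have a2 : |p.2| ≤ R := (norm_snd_le p).trans hp'
  have key : ∀ x : ℝ, |x| ≤ R → ⌊-R / δ⌋ ≤ ⌊x / δ⌋ ∧ ⌊x / δ⌋ ≤ ⌊R / δ⌋ := by
    intro x hx
    rw [abs_le] at hx
    exact ⟨Int.floor_le_floor (div_le_div_of_nonneg_right hx.1 hδ.le),
      Int.floor_le_floor (div_le_div_of_nonneg_right hx.2 hδ.le)⟩
  have b1 := key p.1 a1
  have b2 := key p.2 a2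
  rw [Set.mem_prod, Set.mem_Icc, Set.mem_Icc]
  omega

end Pool.NET
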